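import Pool.Agent.Q267.E8.Stm

set_option autoImplicit false

/-!
# Project E8, job BA: `C(p + n, k)` modulo `p²`
-/

namespace Pool.Agent.Q182.E8

open Finset Pool.Agent.Q267.CDE Pool.Agent.Q267.MW Pool.Agent.Q267.E8

theorem ba : S_BA := by
  intro p n k hp hk hn
  induction k with
  | zero =>
    have : (p : R p) * lift p (H (ZMod p) n - H (ZMod p) (n - 0)) = p * 0 := by
      apply p_mul_eq
      rw [red_lift, map_zero, Nat.sub_zero, sub_self]
    rw [this]
    simp
  | succ k ih =>
    have ih := ih (by omega)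
    have hpp := p_sq p
    obtain ⟨v, hv⟩ : ∃ v, n = k + 1 + v := ⟨n - (k + 1), by omega⟩
    have h1 := Nat.choose_succ_right_eq (p + n) k
    have h1' := congrArg (Nat.cast : ℕ → R p) h1
    rw [Nat.cast_mul, Nat.cast_mul, show p + n - k = p + (v + 1) by omega] at h1'
    have h2 := Nat.choose_succ_right_eq n k
    have h2' := congrArg (Nat.cast : ℕ → R p) h2
    rw [Nat.cast_mul, Nat.cast_mul, show n - k = v + 1 by omega] at h2'
    rw [show n - k = v + 1 by omega] at ih
    rw [show n - (k + 1) = v by omega]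
    push_cast at h1' h2'
    have hu : IsUnit ((k : R p) + 1) := by
      have := isUnit_nat p (k + 1) (by omega) (by omega)
      push_cast at this
      exact this
    have hv0 := Pool.Agent.Q267.CDE.cast_ne p (v + 1) (by omega) (by omega)
    have h3 : (p : R p) * (((v : R p) + 1) * lift p (H (ZMod p) n - H (ZMod p) v)) =
        p * (((v : R p) + 1) * lift p (H (ZMod p) n - H (ZMod p) (v + 1)) + 1) := by
      apply p_mul_eq
      simp only [map_mul, red_lift, map_add, map_natCast, map_one]
      rw [H_succ v]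
      push_cast at hv0 ⊢
      field_simp
      ring
    apply hu.mul_right_cancel
    rw [h1', ih]
    set P : R p := (p : R p)
    set c : R p := ((n.choose k : ℕ) : R p)
    set c' : R p := ((n.choose (k + 1) : ℕ) : R p)
    set l := lift p (H (ZMod p) n - H (ZMod p) (v + 1))
    set l' := lift p (H (ZMod p) n - H (ZMod p) v)
    linear_combination (-c) * h3 + c * l * hpp - (1 + P * l') * h2'

theorem bb1 : S_BB1 := by
  intro p q hp hpq
  have hp2 := hp.out.two_le
  have hq : 0 < q := by omega
  have f1 := Nat.choose_mul_factorial_mul_factorial (show 5 * q ≤ 12 * q by omega)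
  rw [show 12 * q - 5 * q = 7 * q by omega] at f1
  have f2 := Nat.choose_mul_factorial_mul_factorial (show q ≤ 4 * q by omega)
  rw [show 4 * q - q = 3 * q by omega] at f2
  have f3 := Nat.factorial_mul_ascFactorial p (4 * q - 1)
  rw [show p + (4 * q - 1) = 12 * q by omega] at f3
  have f4 := Nat.mul_factorial_pred hp.out.ne_zero
  have hasc : (((p + 1).ascFactorial (4 * q - 1) : ℕ) : ZMod p) = (((4 * q - 1).factorial : ℕ) : ZMod p) := by
    rw [Nat.ascFactorial_eq_prod_range, Nat.cast_prod, ← Finset.prod_range_add_one_eq_factorial,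
      Nat.cast_prod]
    refine Finset.prod_congr rfl fun i _ => ?_
    push_cast
    rw [CharP.cast_eq_zero]
    ring
  have hw : (((p - 1).factorial : ℕ) : ZMod p) = -1 := ZMod.wilsons_lemma p
  have r1 := fact_refl p (3 * q) (by omega)
  have r2 := fact_refl p q (by omega)
  have r3 := fact_refl p (4 * q) (by omega)
  rw [show p - 1 - 3 * q = 5 * q by omega] at r1
  rw [show p - 1 - q = 7 * q by omega] at r2
  rw [show p - 1 - 4 * q = 4 * q by omega] at r3
  have f5 : (4 * q) * (4 * q - 1).factorial = (4 * q).factorial := Nat.mul_factorial_pred (by omega)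
  have f5' := congrArg (Nat.cast : ℕ → ZMod p) f5
  have hpz : ((8 : ZMod p) * q + 1) = 0 := by
    have h := congrArg (Nat.cast : ℕ → ZMod p) hpq
    rw [ZMod.natCast_self] at h
    push_cast at h
    exact h.symm
  have e3 : ((-1 : ZMod p)) ^ (4 * q + 1) = -1 := by
    rw [pow_succ, pow_mul]
    norm_num
  rw [e3] at r3
  have e12 : ((-1 : ZMod p)) ^ (3 * q + 1) * (-1) ^ (q + 1) = 1 := by
    rw [← pow_add, show 3 * q + 1 + (q + 1) = 2 * (2 * q + 1) by ring, pow_mul]
    norm_num
  -- the unit
  have hU : ∀ j : ℕ, j < p → IsUnit ((j.factorial : ℕ) : R p) := by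
    intro j hj
    apply isUnit_of_red
    rw [red_nat, Ne, ZMod.natCast_eq_zero_iff, hp.out.dvd_factorial]
    omega
  have hUU : IsUnit ((((5 * q).factorial : ℕ) : R p) * (((7 * q).factorial : ℕ) : R p) *
      ((((q).factorial : ℕ) : R p) * (((3 * q).factorial : ℕ) : R p))) :=
    ((hU _ (by omega)).mul (hU _ (by omega))).mul ((hU _ (by omega)).mul (hU _ (by omega)))
  apply hUU.mul_right_cancel
  have g1 := congrArg (Nat.cast : ℕ → R p) f1
  have g2 := congrArg (Nat.cast : ℕ → R p) f2
  rw [← f3, ← f4] at g1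
  push_cast at g1 g2
  have hmain : (p : R p) * ((((p - 1).factorial : ℕ) : R p) * (((p + 1).ascFactorial (4 * q - 1) : ℕ) : R p) *
      (((4 * q).factorial : ℕ) : R p)) = p * (-2 * ((((5 * q).factorial : ℕ) : R p) *
      (((7 * q).factorial : ℕ) : R p) * ((((q).factorial : ℕ) : R p) * (((3 * q).factorial : ℕ) : R p)))) := by
    apply p_mul_eq
    simp only [map_mul, map_natCast, map_neg, map_ofNat]
    rw [hasc, hw]
    push_cast at f5'
    have hq0 : ((4 * q : ℕ) : ZMod p) ≠ 0 := Pool.Agent.Q267.CDE.cast_ne p (4 * q) (by omega) (by omega)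
    apply mul_left_cancel₀ hq0
    push_cast
    set a := (((5 * q).factorial : ℕ) : ZMod p)
    set b := (((7 * q).factorial : ℕ) : ZMod p)
    set c := ((q.factorial : ℕ) : ZMod p)
    set d := (((3 * q).factorial : ℕ) : ZMod p)
    set F := (((4 * q).factorial : ℕ) : ZMod p)
    set G := (((4 * q - 1).factorial : ℕ) : ZMod p)
    have h12 : a * d * (b * c) = 1 := by rw [r1, r2, e12]
    linear_combination (-F) * f5' - r3 + (8 * (q : ZMod p)) * h12 + hpz
  linear_combination ((((4 * q).choose q : ℕ) : R p) * ((((q).factorial : ℕ) : R p) * (((3 * q).factorial : ℕ) : R p))) * g1 +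
    ((p : R p) * (((p - 1).factorial : ℕ) : R p) * (((p + 1).ascFactorial (4 * q - 1) : ℕ) : R p)) * g2 + hmain

end Pool.Agent.Q182.E8
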