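import Pool.Agent.Q267.E8.Stm2

set_option autoImplicit false

/-!
# Project E8, second part, job CB
-/

namespace Pool.Agent.Q182.E8

open Finset Pool.Agent.Q267.CDE Pool.Agent.Q267.MW Pool.Agent.Q267.E8

theorem cb : S_CB := by
  intro p m k hp hpm
  have hp2 := hp.out.two_le
  refine ⟨fun hk => ?_, fun h1 h2 => ?_⟩
  · induction k with
    | zero => simp
    | succ k ih =>
      have ih := ih (by omega)
      have hpp := p_sq p
      have h1' := congrArg (Nat.cast : ℕ → R p) (Nat.succ_mul_centralBinom_succ k)
      obtain ⟨v, hv⟩ : ∃ v, m = k + 1 + v := ⟨m - (k + 1), by omega⟩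
      have h2 := Nat.choose_succ_right_eq m k
      rw [show m - k = v + 1 by omega] at h2
      have h2' := congrArg (Nat.cast : ℕ → R p) h2
      have h3 := Nat.add_one_mul_choose_eq (m + k) k
      have h3' := congrArg (Nat.cast : ℕ → R p) h3
      have hu : IsUnit ((k : R p) + 1) := by
        have := isUnit_nat p (k + 1) (by omega) (by omega)
        push_cast at this
        exact this
      have hP := congrArg (Nat.cast : ℕ → R p) (show p = 2 * (k + 1 + v) + 1 by omega)
      have hM := congrArg (Nat.cast : ℕ → R p) hv
      push_cast at h1' h2' h3' hP hM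
      rw [show m + (k + 1) = m + k + 1 by ring]
      apply (hu.mul hu).mul_right_cancel
      rw [pow_succ (16 : R p), pow_succ (-1 : R p)]
      rw [hM] at h3'
      rw [hP] at hpp
      set c : R p := ((k.centralBinom : ℕ) : R p)
      set c' : R p := (((k + 1).centralBinom : ℕ) : R p)
      set a : R p := ((m.choose k : ℕ) : R p)
      set a' : R p := ((m.choose (k + 1) : ℕ) : R p)
      set b : R p := (((m + k).choose k : ℕ) : R p)
      set b' : R p := (((m + k + 1).choose (k + 1) : ℕ) : R p)
      set s : R p := (-1) ^ k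
      set t : R p := 16 ^ k
      linear_combination (((k : R p) + 1) * c' + 2 * (2 * (k : R p) + 1) * c) * h1' +
        4 * (2 * (k : R p) + 1) ^ 2 * ih + 16 * t * s * b' * ((k : R p) + 1) * h2' -
        16 * t * s * a * ((v : R p) + 1) * h3' + 4 * t * s * a * b * hpp
  · have h3 : p ∣ (k + k).choose k := hp.out.dvd_choose_add h2 h2 (by omega)
    have h4 : k.centralBinom = (k + k).choose k := by
      rw [Nat.centralBinom_eq_two_mul_choose, two_mul]
    obtain ⟨d, hd⟩ := h3
    rw [h4, hd]
    push_cast
    rw [mul_pow, p_sq, zero_mul]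

end Pool.Agent.Q182.E8
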